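import Pool.Agent.Helper35.EAM.Spec2
import Pool.Agent.Helper97.EAM.GKS

/-!
# EAM2: the part GKSP (ferromagnet versus percolation)
-/

set_option autoImplicit false

namespace Pool.Agent.Helper27.EAM

open Finset Pool.H47EA Pool.Agent.Helper35.EAM Pool.Agent.Helper97.EAM

section

variable {V ι : Type} [Fintype V] [DecidableEq V] [Fintype ι] [DecidableEq ι]

/-- the open edges connect `o` and `g` -/
def Cn (a b : ι → V) (o g : V) (U : ι → Bool) : Prop :=
  ∀ σ : V → Bool, (∀ e, U e = true → σ (a e) = σ (b e)) → σ o = σ g

open Classical in
/-- the percolation probability -/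
noncomputable def PP (a b : ι → V) (o g : V) (t : ι → ℝ) : ℝ :=
  ∑ U : ι → Bool, (∏ e, if U e = true then t e else 1 - t e) * (if Cn a b o g U then (1 : ℝ) else 0)

omit [Fintype V] [DecidableEq V] in
lemma PP_affine (a b : ι → V) (o g : V) (t : ι → ℝ) (e : ι) :
    PP a b o g t = (1 - t e) * PP a b o g (Function.update t e 0) +
      t e * PP a b o g (Function.update t e 1) := by
  unfold PP
  rw [mul_sum, mul_sum, ← sum_add_distrib]
  refine sum_congr rfl fun U _ => ?_
  have h1 : ∀ x : ℝ, ∏ y, (if U y = true then Function.update t e x y else 1 - Function.update t e x y) =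
      (if U e = true then x else 1 - x) * ∏ y ∈ univ.erase e, (if U y = true then t y else 1 - t y) := by
    intro x
    rw [← mul_prod_erase univ _ (mem_univ e), Function.update_self]
    congr 1
    refine prod_congr rfl fun y hy => ?_
    rw [Function.update_of_ne (ne_of_mem_erase hy)]
  have h2 := h1 (t e)
  rw [Function.update_eq_self] at h2
  rw [h2, h1 0, h1 1]
  cases U e <;> simp

lemma base_perc (a b : ι → V) (o g : V) (t : ι → ℝ) (ht : ∀ e, t e = 0 ∨ t e = 1) :
    PP a b o g t * DD a b t ≤ NN a b o g t := by
  classical
  have ht' : ∀ e, 0 ≤ t e ∧ t e ≤ 1 := fun e => by rcases ht e with h | h <;> rw [h] <;> norm_num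
  let Ut : ι → Bool := fun e => decide (t e = 1)
  have hPP : PP a b o g t = if Cn a b o g Ut then (1 : ℝ) else 0 := by
    unfold PP
    rw [sum_eq_single Ut]
    · have h1 : ∏ e, (if Ut e = true then t e else 1 - t e) = 1 := by
        refine prod_eq_one fun e _ => ?_
        rcases ht e with h | h
        · simp [Ut, h]
        · simp [Ut, h]
      rw [h1, one_mul]
    · intro U _ hU
      have h1 : ∃ e, U e ≠ Ut e := by
        by_contra hc
        push Not at hc
        exact hU (funext hc)
      obtain ⟨e, he⟩ := h1
      rw [prod_eq_zero (mem_univ e), zero_mul]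
      rcases ht e with h | h
      · have h2 : Ut e = false := by simp [Ut, h]
        rw [h2] at he
        have h3 : U e = true := by simpa using he
        rw [if_pos h3, h]
      · have h2 : Ut e = true := by simp [Ut, h]
        rw [h2] at he
        have h3 : U e = false := by simpa using he
        rw [h3, if_neg (by simp), h]
        norm_num
    · intro h
      exact absurd (mem_univ _) h
  by_cases hc : Cn a b o g Ut
  · have hND : NN a b o g t = DD a b t := by
      refine sum_congr rfl fun σ _ => ?_
      by_cases hw : wt a b t σ = 0
      · rw [hw, zero_mul]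
      · have : σ o = σ g := by
          refine hc σ fun e he => ?_
          have he1 : t e = 1 := by simpa [Ut] using he
          by_contra hne
          apply hw
          refine prod_eq_zero (mem_univ e) ?_
          rw [he1]
          cases h1 : σ (a e) <;> cases h2 : σ (b e) <;> simp_all [sg]
        rw [this, sg_sq, mul_one]
    rw [hPP, if_pos hc, hND, one_mul]
  · rw [hPP, if_neg hc, zero_mul]
    exact (pos_wt a b t fun e => (ht' e).1).two o g

lemma main_perc (a b : ι → V) (o g : V)
    (T : Finset ι) : ∀ t : ι → ℝ, (∀ e, 0 ≤ t e ∧ t e ≤ 1) → (∀ e, e ∉ T → t e = 0 ∨ t e = 1) →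
    PP a b o g t * DD a b t ≤ NN a b o g t := by
  induction T using Finset.induction_on with
  | empty =>
    intro t _ h
    exact base_perc a b o g t (fun e => h e (notMem_empty e))
  | insert e T he ih =>
    intro t ht h
    rw [PP_affine a b o g t e]
    have hb : ∀ x : ℝ, (x = 0 ∨ x = 1) → PP a b o g (Function.update t e x) *
        DD a b (Function.update t e x) ≤ NN a b o g (Function.update t e x) := by
      intro x hx
      refine ih _ ?_ ?_
      · intro e'
        by_cases h' : e' = e
        · subst h'
          rw [Function.update_self]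
          rcases hx with rfl | rfl <;> norm_num
        · rw [Function.update_of_ne h']; exact ht e'
      · intro e' he'
        by_cases h' : e' = e
        · subst h'
          rw [Function.update_self]
          exact hx
        · rw [Function.update_of_ne h']
          exact h e' (by simp [h', he'])
    exact affine_step a b o g t ht e _ _ (hb 0 (Or.inl rfl)) (hb 1 (Or.inr rfl))

end

theorem t_GKSP : Pool.Agent.Helper35.EAM2.S_GKSP := by
  intro V ι _ _ _ _ a b o g t ht
  refine le_trans (le_of_eq ?_) (main_perc a b o g univ t ht (fun e he => absurd (mem_univ e) he))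
  unfold PP DD
  congr 1
  refine sum_congr rfl fun U _ => ?_
  congr 1
  by_cases h : Cn a b o g U
  · rw [if_pos h]
    exact if_pos h
  · rw [if_neg h]
    exact if_neg h

end Pool.Agent.Helper27.EAM
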