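import Pool.Agent.Helper35.EAM.Spec5
import Pool.Agent.Helper27.EAM.GKSP
import Pool.Agent.Helper35.EAM.NETG

/-!
# EAM4: the parts GKSU and PERCM
-/

set_option autoImplicit false

namespace Pool.Agent.Helper27.EAM

open Finset Pool.H47EA Pool.Agent.Helper35.EAM Pool.Agent.Helper97.EAM

section

variable {ι : Type} [Fintype ι] [DecidableEq ι]

/-- expectation for independent coins -/
noncomputable def EX (t : ι → ℝ) (F : (ι → Bool) → ℝ) : ℝ :=
  ∑ U : ι → Bool, (∏ e, if U e = true then t e else 1 - t e) * F U

lemma EX_affine (t : ι → ℝ) (F : (ι → Bool) → ℝ) (e : ι) :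
    EX t F = (1 - t e) * EX (Function.update t e 0) F + t e * EX (Function.update t e 1) F := by
  unfold EX
  rw [mul_sum, mul_sum, ← sum_add_distrib]
  refine sum_congr rfl fun U _ => ?_
  have h1 : ∀ x : ℝ, ∏ y, (if U y = true then Function.update t e x y else 1 - Function.update t e x y) =
      (if U e = true then x else 1 - x) * ∏ y ∈ univ.erase e, (if U y = true then t y else 1 - t y) := by
    intro x
    rw [← mul_prod_erase univ _ (mem_univ e), Function.update_self]
    congr 1
    refine prod_congr rfl fun y hy => ?_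
    rw [Function.update_of_ne (ne_of_mem_erase hy)]
  have h2 := h1 (t e)
  rw [Function.update_eq_self] at h2
  rw [h2, h1 0, h1 1]
  cases U e <;> simp [mul_assoc]

/-- flip of one coin -/
def flip1 (e : ι) (U : ι → Bool) : ι → Bool := Function.update U e (!U e)

omit [Fintype ι] in
lemma flip1_flip1 (e : ι) (U : ι → Bool) : flip1 e (flip1 e U) = U := by
  funext y
  unfold flip1
  by_cases h : y = e
  · subst h; simp
  · simp [Function.update_of_ne h]

lemma EX_upd_le (t : ι → ℝ) (ht : ∀ e, 0 ≤ t e ∧ t e ≤ 1) (F : (ι → Bool) → ℝ)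
    (hF : ∀ U U' : ι → Bool, (∀ e, U e = true → U' e = true) → F U ≤ F U') (e : ι) :
    EX (Function.update t e 0) F ≤ EX (Function.update t e 1) F := by
  have h1 : ∀ (x : ℝ) (U : ι → Bool),
      ∏ y, (if U y = true then Function.update t e x y else 1 - Function.update t e x y) =
      (if U e = true then x else 1 - x) * ∏ y ∈ univ.erase e, (if U y = true then t y else 1 - t y) := by
    intro x U
    rw [← mul_prod_erase univ _ (mem_univ e), Function.update_self]
    congr 1
    refine prod_congr rfl fun y hy => ?_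
    rw [Function.update_of_ne (ne_of_mem_erase hy)]
  have hW : ∀ U : ι → Bool, 0 ≤ ∏ y ∈ univ.erase e, (if U y = true then t y else 1 - t y) := by
    intro U
    refine prod_nonneg fun y _ => ?_
    have := ht y
    split_ifs <;> linarith
  have e1 : EX (Function.update t e 0) F = EX (Function.update t e 0) (fun U => F U) := rfl
  -- reindex the second sum by the flip
  have e2 : EX (Function.update t e 1) F =
      ∑ U : ι → Bool, (∏ y, if (flip1 e U) y = true then Function.update t e 1 y
        else 1 - Function.update t e 1 y) * F (flip1 e U) := by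
    unfold EX
    exact (Equiv.sum_comp (Function.Involutive.toPerm (flip1 e) (flip1_flip1 e))
      (fun U : ι → Bool => (∏ y, if U y = true then Function.update t e 1 y
        else 1 - Function.update t e 1 y) * F U)).symm
  rw [e2]
  unfold EX
  refine sum_le_sum fun U _ => ?_
  rw [h1 0 U, h1 1 (flip1 e U)]
  have h3 : ∏ y ∈ univ.erase e, (if (flip1 e U) y = true then t y else 1 - t y) =
      ∏ y ∈ univ.erase e, (if U y = true then t y else 1 - t y) := by
    refine prod_congr rfl fun y hy => ?_
    unfold flip1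
    rw [Function.update_of_ne (ne_of_mem_erase hy)]
  rw [h3]
  have h4 : (flip1 e U) e = !U e := by
    unfold flip1
    rw [Function.update_self]
  rw [h4]
  cases h5 : U e
  · simp only [Bool.false_eq_true, if_false, Bool.not_false, if_true, sub_zero, one_mul]
    refine mul_le_mul_of_nonneg_left (hF _ _ ?_) (hW U)
    intro y hy
    unfold flip1
    by_cases h : y = e
    · subst h
      rw [h5] at hy
      exact absurd hy (by simp)
    · rw [Function.update_of_ne h]; exact hy
  · simp

lemma EX_mono (t0 : ι → ℝ) (ht0 : ∀ e, 0 ≤ t0 e ∧ t0 e ≤ 1) (F : (ι → Bool) → ℝ)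
    (hF : ∀ U U' : ι → Bool, (∀ e, U e = true → U' e = true) → F U ≤ F U') (T : Finset ι) :
    ∀ t : ι → ℝ, (∀ e, t0 e ≤ t e ∧ t e ≤ 1) → (∀ e, e ∉ T → t e = t0 e) → EX t0 F ≤ EX t F := by
  induction T using Finset.induction_on with
  | empty =>
    intro t _ h
    have : t = t0 := funext fun e => h e (notMem_empty e)
    rw [this]
  | insert e T he ih =>
    intro t ht h
    have h1 := ih (Function.update t e (t0 e)) (by
      intro e'
      by_cases h' : e' = e
      · subst h'
        rw [Function.update_self]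
        exact ⟨le_refl _, (ht0 _).2⟩
      · rw [Function.update_of_ne h']; exact ht e') (by
      intro e' he'
      by_cases h' : e' = e
      · subst h'
        rw [Function.update_self]
      · rw [Function.update_of_ne h']
        exact h e' (by simp [h', he']))
    refine h1.trans ?_
    rw [EX_affine (Function.update t e (t0 e)) F e, EX_affine t F e]
    rw [Function.update_self, Function.update_idem, Function.update_idem]
    have h2 := EX_upd_le t (fun e' => ⟨(ht0 e').1.trans (ht e').1, (ht e').2⟩) F hF e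
    nlinarith [(ht e).1, h2]

lemma EX_mono' (t0 t : ι → ℝ) (h : ∀ e, 0 ≤ t0 e ∧ t0 e ≤ t e ∧ t e ≤ 1) (F : (ι → Bool) → ℝ)
    (hF : ∀ U U' : ι → Bool, (∀ e, U e = true → U' e = true) → F U ≤ F U') :
    EX t0 F ≤ EX t F :=
  EX_mono t0 (fun e => ⟨(h e).1, (h e).2.1.trans (h e).2.2⟩) F hF univ t
    (fun e => (h e).2) (fun e he => absurd (mem_univ e) he)

open Classical in
lemma EX_prod (t : ι → ℝ) (S : Finset ι) :
    EX t (fun U => if ∀ e ∈ S, U e = true then (1 : ℝ) else 0) = ∏ e ∈ S, t e := by
  have h1 : ∀ U : ι → Bool, (∏ e, if U e = true then t e else 1 - t e) *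
      (if ∀ e ∈ S, U e = true then (1 : ℝ) else 0) =
      ∏ e, (if e ∈ S then (if U e = true then t e else 0) else (if U e = true then t e else 1 - t e)) := by
    intro U
    by_cases h : ∀ e ∈ S, U e = true
    · rw [if_pos h, mul_one]
      refine prod_congr rfl fun e _ => ?_
      by_cases he : e ∈ S
      · rw [if_pos he, h e he]; simp
      · rw [if_neg he]
    · rw [if_neg h, mul_zero]
      push Not at h
      obtain ⟨e, he, hU⟩ := h
      symm
      refine prod_eq_zero (mem_univ e) ?_
      rw [if_pos he, if_neg hU]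
  unfold EX
  rw [sum_congr rfl fun U _ => h1 U]
  have h2 : ∑ U : ι → Bool, ∏ e, (if e ∈ S then (if U e = true then t e else 0)
      else (if U e = true then t e else 1 - t e)) =
      ∏ e, ∑ x : Bool, (if e ∈ S then (if x = true then t e else 0)
        else (if x = true then t e else 1 - t e)) := by
    rw [Finset.prod_univ_sum, Fintype.piFinset_univ]
  rw [h2]
  have h3 : ∀ e, ∑ x : Bool, (if e ∈ S then (if x = true then t e else 0)
        else (if x = true then t e else 1 - t e)) = if e ∈ S then t e else 1 := by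
    intro e
    rw [Fintype.sum_bool]
    by_cases he : e ∈ S <;> simp [he]
  rw [prod_congr rfl fun e _ => h3 e]
  rw [prod_ite_mem, univ_inter]

end

theorem t_GKSU : Pool.Agent.Helper35.EAM4.S_GKSU := by
  classical
  intro V ι P _ _ _ _ _ a b o g γ hγ t0 t ht lam
  have ht1 : ∀ e, 0 ≤ t e ∧ t e ≤ 1 := fun e => ⟨(ht e).1.trans (ht e).2.1, (ht e).2.2⟩
  have ht01 : ∀ e, 0 ≤ t0 e ∧ t0 e ≤ 1 := fun e => ⟨(ht e).1, (ht e).2.1.trans (ht e).2.2⟩
  have hmain := main_perc a b o g univ t ht1 (fun e he => absurd (mem_univ e) he)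
  have hDD : 0 ≤ DD a b t := by
    have := (pos_wt a b t fun e => (ht1 e).1).two o o
    have h1 : ∑ σ : V → Bool, wt a b t σ * (sg (σ o) * sg (σ o)) = DD a b t := by
      unfold DD
      refine sum_congr rfl fun σ _ => ?_
      rw [sg_sq, mul_one]
    rwa [h1] at this
  have hPP : ∀ s : ι → ℝ, PP a b o g s =
      EX s (fun U => if Cn a b o g U then (1 : ℝ) else 0) := fun s => rfl
  have hmono : PP a b o g t0 ≤ PP a b o g t := by
    rw [hPP, hPP]
    refine EX_mono' t0 t ht _ ?_
    intro U U' hU
    by_cases hc : Cn a b o g U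
    · have : Cn a b o g U' := fun σ hσ => hc σ fun e he => hσ e (hU e he)
      rw [if_pos hc, if_pos this]
    · rw [if_neg hc]
      split_ifs <;> norm_num
  have hX : 2 * lam * ∑ s, ∏ e ∈ γ s, t0 e - lam ^ 2 * ∑ s, ∑ s', ∏ e ∈ γ s ∪ γ s', t0 e ≤
      PP a b o g t0 := by
    let X : (ι → Bool) → ℝ := fun U => ∑ s, if ∀ e ∈ γ s, U e = true then (1 : ℝ) else 0
    have e1 : ∑ s, ∏ e ∈ γ s, t0 e = EX t0 X := by
      have : ∀ s, ∏ e ∈ γ s, t0 e = EX t0 (fun U => if ∀ e ∈ γ s, U e = true then (1 : ℝ) else 0) :=
        fun s => (EX_prod t0 (γ s)).symm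
      rw [sum_congr rfl fun s _ => this s]
      unfold EX
      rw [sum_comm]
      refine sum_congr rfl fun U _ => ?_
      rw [mul_sum]
    have e2 : ∑ s, ∑ s', ∏ e ∈ γ s ∪ γ s', t0 e = EX t0 (fun U => X U * X U) := by
      have : ∀ s s', ∏ e ∈ γ s ∪ γ s', t0 e =
          EX t0 (fun U => if ∀ e ∈ γ s ∪ γ s', U e = true then (1 : ℝ) else 0) :=
        fun s s' => (EX_prod t0 (γ s ∪ γ s')).symm
      rw [sum_congr rfl fun s _ => sum_congr rfl fun s' _ => this s s']
      unfold EX
      rw [sum_congr rfl fun s _ => sum_comm, sum_comm]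
      refine sum_congr rfl fun U _ => ?_
      have hXX : X U * X U = ∑ s, ∑ s', (if ∀ e ∈ γ s ∪ γ s', U e = true then (1 : ℝ) else 0) := by
        show (∑ s, if ∀ e ∈ γ s, U e = true then (1 : ℝ) else 0) *
          (∑ s, if ∀ e ∈ γ s, U e = true then (1 : ℝ) else 0) = _
        rw [sum_mul_sum]
        refine sum_congr rfl fun s _ => sum_congr rfl fun s' _ => ?_
        by_cases h1 : ∀ e ∈ γ s, U e = true
        · by_cases h2 : ∀ e ∈ γ s', U e = true
          · have h3 : ∀ e ∈ γ s ∪ γ s', U e = true := by
              intro e he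
              rcases mem_union.1 he with h | h
              · exact h1 e h
              · exact h2 e h
            rw [if_pos h1, if_pos h2, if_pos h3, mul_one]
          · have h3 : ¬ ∀ e ∈ γ s ∪ γ s', U e = true := fun h => h2 fun e he => h e (mem_union_right _ he)
            rw [if_neg h2, if_neg h3, mul_zero]
        · have h3 : ¬ ∀ e ∈ γ s ∪ γ s', U e = true := fun h => h1 fun e he => h e (mem_union_left _ he)
          rw [if_neg h1, if_neg h3, zero_mul]
      show _ = (∏ e, if U e = true then t0 e else 1 - t0 e) * (X U * X U)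
      rw [hXX, mul_sum]
      refine sum_congr rfl fun s _ => ?_
      rw [mul_sum]
    rw [e1, e2, hPP]
    have e3 : 2 * lam * EX t0 X - lam ^ 2 * EX t0 (fun U => X U * X U) =
        EX t0 (fun U => 2 * lam * X U - lam ^ 2 * (X U * X U)) := by
      unfold EX
      rw [mul_sum, mul_sum, ← sum_sub_distrib]
      refine sum_congr rfl fun U _ => ?_
      ring
    rw [e3]
    unfold EX
    refine sum_le_sum fun U _ => ?_
    refine mul_le_mul_of_nonneg_left ?_ ?_
    · show 2 * lam * X U - lam ^ 2 * (X U * X U) ≤ if Cn a b o g U then (1 : ℝ) else 0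
      by_cases hc : Cn a b o g U
      · rw [if_pos hc]
        nlinarith [sq_nonneg (lam * X U - 1)]
      · rw [if_neg hc]
        have hX0 : X U = 0 := by
          refine sum_eq_zero fun s _ => ?_
          rw [if_neg]
          intro h
          exact hc fun σ hσ => hγ s σ fun e he => hσ e (h e he)
        rw [hX0]
        simp
    · refine prod_nonneg fun e _ => ?_
      have := ht01 e
      split_ifs <;> linarith
  calc _ ≤ PP a b o g t * DD a b t := mul_le_mul_of_nonneg_right (hX.trans hmono) hDD
    _ ≤ NN a b o g t := hmain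

open Classical in
theorem t_PERCM : Pool.Agent.Helper35.EAM4.S_PERCM := by
  intro d L Bd T0 T o h0 h1 h2 hB ho
  rw [Pool.Agent.Helper35.EAM2.perc_sum T0 h0 (h1.trans h2) hB ho,
    Pool.Agent.Helper35.EAM2.perc_sum T (h0.trans h1) h2 hB ho]
  refine EX_mono' (fun _ => T0) (fun _ => T) (fun _ => ⟨h0, h1, h2⟩) _ ?_
  intro U U' hU
  by_cases hc : Pool.Agent.Helper35.EAM2.CN L Bd ⟨o, ho⟩ U
  · have : Pool.Agent.Helper35.EAM2.CN L Bd ⟨o, ho⟩ U' := fun σ hσ => hc σ fun e he => hσ e (hU e he)
    rw [if_pos hc, if_pos this]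
  · rw [if_neg hc]
    split_ifs <;> norm_num

end Pool.Agent.Helper27.EAM
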